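import Mathlib
import Pool.Agent.Y259.RH.Bridge

set_option autoImplicit false

open MeasureTheory Pool.Agent.Y259.RHS

namespace Pool.Agent.Results.MP_dc9318_an.ReinhardtHS

/-- **Hilbert-Schmidt Hankel operators on bounded Reinhardt domains are zero.**
Let `n ≥ 2`, let `Ω ⊆ ℂⁿ` be a bounded Reinhardt domain (no convexity, pseudoconvexity or
completeness is assumed) and let `f` be holomorphic on `Ω`. If the Hankel operator with symbol `f̄`
is Hilbert-Schmidt on the Bergman space of `Ω`, then `f` is constant on `Ω`, and the Hankel operator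
is zero: its only value at each `g` in its domain is `0`. -/
theorem result (n : ℕ) (hn : 2 ≤ n) (Ω : Set (Fin n → ℂ)) (hΩ : IsReinhardtDomain Ω)
    (hb : Bornology.IsBounded Ω) (f : (Fin n → ℂ) → ℂ) (hf : DifferentiableOn ℂ f Ω)
    (hHS : IsHilbertSchmidtHankel Ω f) :
    (∃ c : ℂ, ∀ z ∈ Ω, f z = c) ∧
      ∀ g ∈ hankelDomain Ω f, ∀ w : L2 Ω, IsHankelValue Ω f g w ↔ w = 0 := by
  obtain ⟨c, hc⟩ := Pool.Agent.Y259.RH.const_of_hs hn (toOld hΩ) hb hf (hs_old hHS)
  exact ⟨⟨c, hc⟩, fun g hg w => zero_iff hΩ.isOpen.measurableSet hc hg w⟩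

end Pool.Agent.Results.MP_dc9318_an.ReinhardtHS
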